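import Pool.Agent.H857.SG.Core
import Pool.Agent.H857.EF.P.S10
import Pool.Agent.H857.EF.P.S11

/-!
# SG B5: exotic classes give exotic relations, in all dimensions (for helper857)
-/

set_option autoImplicit false

namespace Pool.Agent.H548.SGB5

open Module Polynomial Pool.Agent.W521.Descent Pool.Agent.W521.Density Pool.Agent.W521.Count
  Pool.Agent.X297.UB Pool.Agent.H857.PB Pool.Agent.H857.PA Pool.Agent.H857.HK Pool.Agent.H857.EF
  Pool.Agent.H857.WT Pool.Agent.H857.SG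

theorem matched_map {P P' : ℂ → ℂ → Prop} {g : ℂ → ℂ} {S : ℂ → Prop}
    (hP : ∀ a b, S a → S b → P a b → P' (g a) (g b)) {L : List ℂ} (h : Matched P L) :
    (∀ z ∈ L, S z) → Matched P' (L.map g) := by
  induction h with
  | nil =>
    intro _
    exact Matched.nil
  | @cons a b L L' hab _ hperm ih =>
    intro hS
    have hmem : ∀ z ∈ a :: b :: L, S z := fun z hz => hS z (hperm.mem_iff.2 hz)
    refine Matched.cons (hP a b (hmem a (by simp)) (hmem b (by simp)) hab)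
      (ih fun z hz => hmem z (by simp [hz])) ?_
    exact hperm.map g

theorem exists_lift {S : ℂ → Prop} {g : ℂ → ℂ} (M : List ℂ)
    (hM : ∀ w ∈ M, ∃ z, S z ∧ w = g z) : ∃ L : List ℂ, (∀ z ∈ L, S z) ∧ M = L.map g := by
  induction M with
  | nil => exact ⟨[], by simp, rfl⟩
  | cons w M ih =>
    obtain ⟨L, hL, hLM⟩ := ih fun v hv => hM v (by simp [hv])
    obtain ⟨z, hz, hzw⟩ := hM w (by simp)
    refine ⟨z :: L, ?_, ?_⟩
    · intro v hv
      rcases List.mem_cons.1 hv with rfl | hv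
      · exact hz
      · exact hL v hv
    · rw [List.map_cons, ← hLM, hzw]

/-- The common argument: relations between the powers of the roots come from pairs. -/
theorem matched_pow {q m : ℕ} (hq : 1 < q) (hm0 : 0 < m) {f : ℤ[X]}
    (hm : ∀ y z : ℂ, aeval y f = 0 → aeval z f = 0 → PairRel q y z →
      (y * z) ^ m = (q : ℂ) ^ m)
    (hnorm : ∀ z : ℂ, aeval z f = 0 → ‖z‖ ^ 2 = q) (hex : ¬ ExL q f) {k : ℕ} (hk : 0 < k)
    (M : List ℂ) (hM : ∀ w ∈ M, ∃ z, aeval z f = 0 ∧ w = z ^ (m * k)) (n : ℤ) {N : ℕ}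
    (hN : 0 < N) (hprod : M.prod ^ N = (((q : ℂ) ^ (m * k)) ^ n) ^ N) :
    Matched (fun y z => y * z = (q : ℂ) ^ (m * k)) M := by
  obtain ⟨L, hL, rfl⟩ := exists_lift (g := fun z => z ^ (m * k)) M hM
  have hmk : 0 < m * k := Nat.mul_pos hm0 hk
  have h1 : (L.map fun z => z ^ (m * k)).prod = L.prod ^ (m * k) := by
    have h2 : ∀ K : List ℂ, (K.map fun z => z ^ (m * k)).prod = K.prod ^ (m * k) := by
      intro K
      induction K with
      | nil => simp
      | cons a K ih => rw [List.map_cons, List.prod_cons, List.prod_cons, ih, mul_pow]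
    exact h2 L
  rw [h1] at hprod
  have h3 := Pool.Agent.H720.EFS.s11 q f hq hnorm hex L hL
    ⟨m * k * N, Nat.mul_pos hmk hN, n, by
      rw [pow_mul, hprod, ← zpow_natCast, ← zpow_natCast, ← zpow_mul, ← zpow_mul]
      congr 1
      push_cast
      ring⟩
  refine matched_map (S := fun z => aeval z f = 0) ?_ h3 hL
  intro a b ha hb hab
  have h4 := hm a b ha hb hab
  show a ^ (m * k) * b ^ (m * k) = (q : ℂ) ^ (m * k)
  rw [← mul_pow, pow_mul, h4, pow_mul]

theorem span_pow {V : Type} [AddCommGroup V] [Module ℂ V] (F : V →ₗ[ℂ] V) (E : Set ℂ)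
    (hF : Submodule.span ℂ {v : V | ∃ μ : ℂ, μ ∈ E ∧ F v = μ • v} = ⊤) (s : ℕ) :
    Submodule.span ℂ {v : V | ∃ μ : ℂ, μ ∈ {ν | ∃ μ ∈ E, ν = μ ^ s} ∧ (F ^ s) v = μ • v} = ⊤ := by
  rw [eq_top_iff, ← hF]
  refine Submodule.span_mono ?_
  rintro v ⟨μ, hμ, hv⟩
  refine ⟨μ ^ s, ⟨μ, hμ, rfl⟩, ?_⟩
  induction s with
  | zero => simp
  | succ m ih => rw [pow_succ', Module.End.mul_apply, ih, map_smul, hv, smul_smul, pow_succ]

/-- An exponent for the roots of one polynomial. -/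
theorem exists_exponent {q : ℕ} {f : ℤ[X]} (hf : f ≠ 0) :
    ∃ m : ℕ, 0 < m ∧ ∀ y z : ℂ, aeval y f = 0 → aeval z f = 0 → PairRel q y z →
      (y * z) ^ m = (q : ℂ) ^ m := by
  classical
  set R : Finset ℂ := (f.map (Int.castRingHom ℂ)).roots.toFinset with hR
  have hf' : f.map (Int.castRingHom ℂ) ≠ 0 := by
    rw [Ne, Polynomial.map_eq_zero_iff (Int.castRingHom ℂ).injective_int]
    exact hf
  have hmem : ∀ z : ℂ, aeval z f = 0 → z ∈ R := by
    intro z hz
    rw [hR, Multiset.mem_toFinset, mem_roots hf', IsRoot.def, eval_map, ← hz]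
    rfl
  have hE : ∀ t : ℂ × ℂ, ∃ N : ℕ, 0 < N ∧ (PairRel q t.1 t.2 →
      (t.1 * t.2) ^ N = (q : ℂ) ^ N) := by
    intro t
    by_cases h : PairRel q t.1 t.2
    · obtain ⟨N, hN, h1⟩ := h
      exact ⟨N, hN, fun _ => h1⟩
    · exact ⟨1, one_pos, fun h1 => absurd h1 h⟩
  choose N hN hN2 using hE
  refine ⟨∏ t ∈ R ×ˢ R, N t, Finset.prod_pos fun t _ => hN t, ?_⟩
  intro y z hy hz hyz
  have hd : N (y, z) ∣ ∏ t ∈ R ×ˢ R, N t :=
    Finset.dvd_prod_of_mem N (Finset.mem_product.2 ⟨hmem y hy, hmem z hz⟩)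
  obtain ⟨c, hc⟩ := hd
  rw [hc, pow_mul, pow_mul, hN2 (y, z) hyz]

theorem b5 : B5 := by
  intro q g hq f hf hex
  by_contra hL
  obtain ⟨m, hm0, hm⟩ := exists_exponent (q := q) hf.1.ne_zero
  obtain ⟨V, i1, i2, i3, F, hF, i, s, x, hs, hx, hFx, hno⟩ := hex
  refine hno m hm0 ?_
  have hF' : Submodule.span ℂ {v : V | ∃ μ : ℂ, μ ∈ {z : ℂ | aeval z f = 0} ∧ F v = μ • v} = ⊤ :=
    hF
  refine Pool.Agent.H356.EFs10.s10 V (F ^ (s * m)) _ (span_pow F _ hF' (s * m))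
    ((q : ℂ) ^ (s * m)) i 1 ?_ x hx ?_
  · intro M hM _ hprod
    have h1 := matched_pow hq hm0 hm hf.2.2.2 hL hs M (by
      intro w hw
      obtain ⟨z, hz, h2⟩ := hM w hw
      exact ⟨z, hz, by rw [h2, mul_comm]⟩) (i : ℤ) one_pos (by
        rw [hprod, zpow_natCast, mul_comm s m])
    rwa [mul_comm m s] at h1
  · have h1 := Pool.Agent.W521.Pole.map_pow_apply (F ^ s) m x _ hFx
    rw [← pow_mul] at h1
    rw [pow_one, h1, pow_one]
    congr 1
    rw [← pow_mul, ← pow_mul, ← pow_mul]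
    congr 1
    ring

end Pool.Agent.H548.SGB5
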